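import Pool.Agent.R713.AS.Data
import Pool.Agent.W289.CG.Fin

/-!
# Class groups of large `m`-rank in every degree and every signature
-/

set_option autoImplicit false

namespace Pool.Agent.Results.MP_176ace_nt.AllSignatures

open NumberField Pool.Agent.W289.CG

/-- the fields for given data, when the number of real solutions is known in an interval -/
theorem of_data {n : ℕ} (hn : 2 ≤ n) (D : Dat n 2) (r₁ : ℕ) (v₁ v₂ : ℝ) (h₁ : 0 < v₁)
    (h₁₂ : v₁ < v₂) (hcount : ∀ v, v₁ < v → v < v₂ →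
      {X : ℝ | ∏ i, (X - (D.a i : ℝ)) = - v}.ncard = r₁) (m N : ℕ) (hm : 2 ≤ m) :
    ∃ (K : Type) (_ : Field K) (_ : NumberField K), Module.finrank ℚ K = n ∧
      InfinitePlace.nrRealPlaces K = r₁ ∧ (N : ℤ) < |discr K| ∧
      ∀ R, R + Units.rank K ≤ n + 1 →
        ∃ f : Multiplicative (Fin R → ZMod m) →* ClassGroup (𝓞 K), Function.Injective f := by
  have hcR : (0 : ℝ) < D.c := by exact_mod_cast D.hc
  have h₂ : 0 < v₂ := h₁.trans h₁₂
  have hm0 : m ≠ 0 := by omega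
  have hmR : (0 : ℝ) < (m : ℝ)⁻¹ := by positivity
  set x : ℝ := (1 + D.c / v₂) ^ ((m : ℝ)⁻¹) with hx
  set y : ℝ := (1 + D.c / v₁) ^ ((m : ℝ)⁻¹) with hy
  have hx0 : 0 ≤ 1 + D.c / v₂ := by positivity
  have hy0 : 0 ≤ 1 + D.c / v₁ := by positivity
  have hxm : x ^ m = 1 + D.c / v₂ := Real.rpow_inv_natCast_pow hx0 hm0
  have hym : y ^ m = 1 + D.c / v₁ := Real.rpow_inv_natCast_pow hy0 hm0
  have hx1 : 1 ≤ x := Real.one_le_rpow (by
    have : 0 < D.c / v₂ := div_pos hcR h₂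
    linarith) hmR.le
  have hxy : x < y := Real.rpow_lt_rpow hx0 (by
    have : D.c / v₂ < D.c / v₁ := div_lt_div_of_pos_left hcR h₁ h₁₂
    linarith) hmR
  obtain ⟨s, t, K, hK1, hK2, hs, hxs, hys, hfr, hdisc, hreal, hcl⟩ :=
    core (Pool.Agent.W930.CG.cls Pool.Agent.W240.CG.grp Pool.Agent.W125.CG.uni)
      Pool.Agent.W64.CG.val Pool.Agent.W405.CG.loc Pool.Agent.W290.CG.emb
      Pool.Agent.W349.CG.mu Pool.Agent.W349.CG.red Pool.Agent.W349.CG.WeilT.main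
      Pool.Agent.W505.CG.root Pool.Agent.W505.CG.st Pool.Agent.W505.CG.irr
      Pool.Agent.W505.CG.disc Pool.Agent.W240.CG.pl hn (by norm_num : 1 ≤ 2) D m N hm x y hx1 hxy
  refine ⟨K, hK1, hK2, hfr, ?_, hdisc, fun R hR => hcl R (by omega)⟩
  have hsR : (0 : ℝ) < s := by exact_mod_cast hs
  have htR : (s : ℝ) < t := by nlinarith
  have hsm : (0 : ℝ) < (s : ℝ) ^ m := by positivity
  have h3 : (1 + D.c / v₂) * (s : ℝ) ^ m < (t : ℝ) ^ m := by
    rw [← hxm, ← mul_pow]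
    exact pow_lt_pow_left₀ hxs (by positivity) hm0
  have h4 : (t : ℝ) ^ m < (1 + D.c / v₁) * (s : ℝ) ^ m := by
    rw [← hym, ← mul_pow]
    exact pow_lt_pow_left₀ hys (by linarith) hm0
  have h5 : 0 < (t : ℝ) ^ m - (s : ℝ) ^ m := by
    have h6 : 0 < D.c / v₂ * (s : ℝ) ^ m := by positivity
    nlinarith
  rw [hreal]
  apply hcount
  · rw [lt_div_iff₀ h5]
    have h6 : (t : ℝ) ^ m - (s : ℝ) ^ m < D.c / v₁ * (s : ℝ) ^ m := by nlinarith
    have h7 : v₁ * ((t : ℝ) ^ m - (s : ℝ) ^ m) < v₁ * (D.c / v₁ * (s : ℝ) ^ m) :=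
      mul_lt_mul_of_pos_left h6 h₁
    have h8 : v₁ * (D.c / v₁ * (s : ℝ) ^ m) = (s : ℝ) ^ m * D.c := by
      field_simp
    linarith
  · rw [div_lt_iff₀ h5]
    have h6 : D.c / v₂ * (s : ℝ) ^ m < (t : ℝ) ^ m - (s : ℝ) ^ m := by nlinarith
    have h7 : v₂ * (D.c / v₂ * (s : ℝ) ^ m) < v₂ * ((t : ℝ) ^ m - (s : ℝ) ^ m) :=
      mul_lt_mul_of_pos_left h6 h₂
    have h8 : v₂ * (D.c / v₂ * (s : ℝ) ^ m) = (s : ℝ) ^ m * D.c := by
      field_simp
    linarith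

/-- Let `n ≥ 3` and `m ≥ 2`, and let `(r₁, r₂)` be any signature with `r₁ + 2 r₂ = n`.  There are
number fields of degree `n`, of signature `(r₁, r₂)` and of arbitrarily large discriminant whose
class group contains `(ℤ/m)^(r₂+2)`. -/
theorem result (n r₁ r₂ m : ℕ) (hn : 3 ≤ n) (hr : r₁ + 2 * r₂ = n) (hm : 2 ≤ m) (N : ℕ) :
    ∃ (K : Type) (_ : Field K) (_ : NumberField K), Module.finrank ℚ K = n ∧
      InfinitePlace.nrRealPlaces K = r₁ ∧ InfinitePlace.nrComplexPlaces K = r₂ ∧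
      (N : ℤ) < |discr K| ∧
      ∃ f : Multiplicative (Fin (r₂ + 2) → ZMod m) →* ClassGroup (𝓞 K),
        Function.Injective f := by
  obtain ⟨e, p, he, hnp⟩ : ∃ e p : ℕ, e ≤ 1 ∧ n = 1 + e + 2 * (p + 1) := by
    rcases Nat.even_or_odd n with ⟨k, hk⟩ | ⟨k, hk⟩
    · exact ⟨1, k - 2, le_rfl, by omega⟩
    · exact ⟨0, k - 1, by omega, by omega⟩
  have hdat : ∃ (D : Dat n 2) (v₁ v₂ : ℝ), 0 < v₁ ∧ v₁ < v₂ ∧ ∀ v, v₁ < v → v < v₂ →
      {X : ℝ | ∏ i, (X - (D.a i : ℝ)) = - v}.ncard = r₁ := by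
    rcases Nat.lt_or_ge (p + 1) r₂ with h | h
    · -- all roots are complex
      subst hnp
      obtain ⟨D, -⟩ := Pool.Agent.R713.AS.ex_data e p 0 he (by omega)
      obtain ⟨B, hB⟩ := Pool.Agent.W240.CG.real1 _ D.a (by omega) D.ha
      refine ⟨D, |B| + 1, |B| + 2, by positivity, by linarith, fun v hv _ => ?_⟩
      rw [hB v (by linarith [le_abs_self B])]
      omega
    · subst hnp
      obtain ⟨D, v₁, v₂, h1, h2, h3⟩ := Pool.Agent.R713.AS.ex_data e p r₂ he h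
      refine ⟨D, v₁, v₂, h1, h2, fun v hv hv' => ?_⟩
      rw [h3 v hv hv']
      omega
  obtain ⟨D, v₁, v₂, h1, h2, h3⟩ := hdat
  obtain ⟨K, hK1, hK2, hfr, hreal, hdisc, hcl⟩ :=
    of_data (by omega) D r₁ v₁ v₂ h1 h2 h3 m N hm
  have h8 := InfinitePlace.card_add_two_mul_card_eq_rank K
  have h7 := rank_eq K
  refine ⟨K, hK1, hK2, hfr, hreal, ?_, hdisc, hcl (r₂ + 2) ?_⟩
  · omega
  · omega

end Pool.Agent.Results.MP_176ace_nt.AllSignatures
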