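import Pool.Agent.R493.CR.F

/-!
# Unbounded `m`-rank: from degree `d` and `m` to degree `d k` and `m k`

If the `m`-rank of the class groups of number fields of degree `d` is unbounded, then for every
`k ≥ 1` the `m k`-rank of the class groups of number fields of degree `d k` is unbounded. In
particular the conjecture for all degrees follows from the conjecture for prime degrees.

Proof. Let `k = l` be a prime, `A_1, ..., A_R` ideals of a field `K` of degree `d` whose classes
are independent of order `m`, with `A_i` exactly divisible by a prime not dividing the other `A_j`.
Let `L = K(a ^ (1/l))` where `a` is exactly divisible by all primes dividing the `A_i`. Then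
`A_i 𝓞_L = P_i ^ l` and `P_i` has norm `A_i`, so all relations between the classes of the `P_i` have
exponents divisible by `m`. A relation with exponents `m a_i`, `0 ≤ a_i < l`, gives an element
whose `l`-th power is a unit times `∏ π_i ^ a_i`, where `A_i ^ m = (π_i)`; the relations with the
same unit class modulo `l`-th powers give elements of `L` which differ by `l`-th roots of elements
of `K`, and these are linearly independent over `K` (all traces vanish), so there are at most `l` of
them. So the group of relations modulo `m l` has order bounded in terms of `d` and `l` only, and a
bounded number of the `P_i` can be dropped so that the others are independent of order `m l`.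
-/

set_option autoImplicit false

namespace Pool.Agent.Results.MP_176ace_nt.ClosureRule

open NumberField

/-- `S(d, m)`: for every `R` there is a number field of degree `d` whose class group contains a
subgroup isomorphic to `(ℤ/m)^R`. -/
def UnboundedRank (d m : ℕ) : Prop :=
  ∀ R : ℕ, ∃ (K : Type) (_ : Field K) (_ : NumberField K), Module.finrank ℚ K = d ∧
    ∃ f : Multiplicative (Fin R → ZMod m) →* ClassGroup (𝓞 K), Function.Injective f

/-- `S(d, m)` implies `S(d k, m k)` for every `k ≥ 1`; in particular `S(d, m)` holds for all
`d, m > 1` if and only if `S(l, m)` holds for all primes `l` and all `m > 1`. -/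
theorem result :
    (∀ d m k : ℕ, 1 ≤ m → 1 ≤ k → UnboundedRank d m → UnboundedRank (d * k) (m * k)) ∧
    ((∀ d : ℕ, 1 < d → ∀ m : ℕ, 1 < m → UnboundedRank d m) ↔
      ∀ l : ℕ, l.Prime → ∀ m : ℕ, 1 < m → UnboundedRank l m) :=
  ⟨fun _ _ _ hm hk h => R493.CR.closure (by omega) (by omega) h, R493.CR.reduction⟩

end Pool.Agent.Results.MP_176ace_nt.ClosureRule
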