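import Pool.Agent.R493.CR.Q4

/-!
# Unbounded `m`-rank of class groups in even degrees `d` for all `m` dividing `2 d`

For every even `d` and every `m` dividing `2 d` there are number fields of degree `d` whose class
group contains `(ℤ/m)^r` with `r` arbitrarily large. For `m ∤ d` (for example `m = 2 d`) this is not
a consequence of genus theory.

Proof. For `d = 2`, `m = 4`: let `n = p_1 ⋯ p_t`, where the primes `p_i ≡ 1 (mod 8)` are squares
modulo each other. In `ℚ(√n)` the classes of the ideals `P_i = (p_i, √n)` have a bounded group of
relations modulo `2`, and they are squares: by Legendre's theorem `w² - n Y² = p_i X²` has a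
primitive solution, and `(α) = P_i (α, X)²` for `α = w + Y √n`, or half of it if `X` is even. The
general case follows from the closure rule: from degree `d` and `m` to degree `d k` and `m k`.
-/

set_option autoImplicit false

namespace Pool.Agent.Results.MP_176ace_nt.EvenDegrees

open NumberField

/-- For every even `d > 0`, every `m` dividing `2 d` and every `r` there is a number field of
degree `d` whose class group contains a subgroup isomorphic to `(ℤ/m)^r`. -/
theorem result :
    ∀ d : ℕ, 0 < d → Even d → ∀ m : ℕ, m ∣ 2 * d → ∀ r : ℕ,
      ∃ (K : Type) (_ : Field K) (_ : NumberField K), Module.finrank ℚ K = d ∧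
        ∃ f : Multiplicative (Fin r → ZMod m) →* ClassGroup (𝓞 K), Function.Injective f :=
  fun _ hd0 hd _ hm r => R493.CR.even_degrees (by omega) hd hm r

end Pool.Agent.Results.MP_176ace_nt.EvenDegrees
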